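import Pool.Agent.Y9.OM.Fin

/-!
# Binary unbiased black-box complexity of all functions with few optima

Lehre and Witt (2012): with unary unbiased operators every function with a unique optimum needs
`Ω(n log n)` queries. We show that with binary ones every function with a unique optimum needs a
linear number of queries; for OneMax this is the question of the problem. The bound does not come
from a lack of information: it holds for strategies that know the optimum and see all the points
which they have produced, so that only the way in which new points are produced is restricted. It is
exponentially unlikely to succeed with fewer queries, so the bound holds for all functions with at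
most `exp (c n)` optima; and it holds for coming closer to the optimum than `(1/2 - δ) n`.

The proof follows the starting result (a convex potential for the sign vectors of the points
relative to the optimum); new are the exponential moments of its decrease and the scaled potentials
for the different distances.
-/

set_option autoImplicit false

namespace Pool.Agent.Results.MP_f3079c_lc.UniqueOptimum

open scoped ENNReal
open Pool.Agent.Results.MP_f3079c_lc.BinaryLinear Pool.Agent.Y9.OM

/-- Binary unbiased operators only (arity at most `2`).

(1) Let `2 d ≤ n`, let `S` be covered by `m` Hamming balls of radius `d`, and let `σ` be a strategy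
which chooses parents and operator in dependence on all the points produced so far (and on `S`). The
probability that one of the first `t` points is in `S` is at most
`m 4^t exp (- ((n - 2d)^2 / n - 14) / 64)`, and the expected number of queries until a point is in `S`
is at least `(n - 2d)^2 / (256 n) - log m`.
(2) If `S` is one ball of radius `d`, this expected number is at least `((n - 2d)^2 / n - 14) / 50`.
(3) For every objective function `f` whose maximisers are covered by `m` balls of radius `d`, every
algorithm has expected running time at least `(n - 2d)^2 / (256 n) - log m` on `f`; for `d = 0` these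
are the functions with at most `m` maximisers.
(4) On a function with a unique maximiser every algorithm has expected running time at least `n / 64`.
(5) In particular the binary unbiased black-box complexity of OneMax is at least `n / 64`. -/
theorem result :
    (∀ (n m d : ℕ) (S : Set (Pt n)) (σ : Strategy n 2), 2 * d ≤ n → Covered S m d →
      (∀ t, hitProb σ S t ≤
        ENNReal.ofReal (m * 4 ^ t * Real.exp (-(((n : ℝ) - 2 * d) ^ 2 / n - 14) / 64))) ∧
      ENNReal.ofReal (((n : ℝ) - 2 * d) ^ 2 / n / 256 - Real.log m) ≤ hitTime σ S) ∧
    (∀ (n d : ℕ) (z : Pt n) (σ : Strategy n 2), 2 * d ≤ n →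
      ENNReal.ofReal ((((n : ℝ) - 2 * d) ^ 2 / n - 14) / 50) ≤
        hitTime σ {y | hammingDist y z ≤ d}) ∧
    (∀ (n m d : ℕ) (f : Pt n → ℕ) (A : Algorithm n 2), 2 * d ≤ n →
      Covered {y | IsMaximiser f y} m d →
      ENNReal.ofReal (((n : ℝ) - 2 * d) ^ 2 / n / 256 - Real.log m) ≤ expectedTime A f) ∧
    (∀ (n : ℕ) (f : Pt n → ℕ) (A : Algorithm n 2), (∃! z, IsMaximiser f z) →
      (n : ℝ≥0∞) / 64 ≤ expectedTime A f) ∧
    ∀ n : ℕ, (n : ℝ≥0∞) / 64 ≤ complexity 2 n := by
  have h4 : ∀ (n : ℕ) (f : Pt n → ℕ) (A : Algorithm n 2), (∃! z, IsMaximiser f z) →
      (n : ℝ≥0∞) / 64 ≤ expectedTime A f := by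
    rintro n f A ⟨z, hz, huniq⟩
    refine expected_ge A f _ fun σ => ?_
    have h : {y | IsMaximiser f y} = {z} := by
      ext y
      exact ⟨fun hy => huniq y hy, fun hy => by rw [Set.mem_singleton_iff.1 hy]; exact hz⟩
    rw [h]
    exact unique_time σ z
  refine ⟨fun n m d S σ hd hS => ⟨fun t => covered_hit σ S hd hS t, covered_time σ S hd hS⟩,
    fun n d z σ hd => time_le σ z hd,
    fun n m d f A hd hS => expected_ge A f _ fun σ => covered_time σ _ hd hS, h4, fun n => ?_⟩
  unfold complexity
  refine le_iInf fun A => ?_
  refine le_trans (h4 n (om fun _ => false) A ?_)
    (le_iSup (fun z : Pt n => expectedTime A (om z)) (fun _ => false))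
  exact ⟨fun _ => false, (om_max_iff _ _).2 rfl, fun y hy => (om_max_iff _ _).1 hy⟩

end Pool.Agent.Results.MP_f3079c_lc.UniqueOptimum
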